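import Mathlib

namespace Pool.Agent.Results.MP_5bb224_al.Intersection

open Matrix Function

variable {K : Type*} [Field K]

lemma odd_fix {f : K → K} {e : ℕ} (he : Odd e) {t : K} (h : f^[e] t = t) (h2 : f (f t) = t) :
    f t = t := by
  have := IsPeriodicPt.gcd (f := f) (m := 2) (n := e) (x := t) h2 h
  rwa [(Nat.coprime_two_left.2 he).gcd_eq_one] at this

lemma notfix (φ : K →+* K) {e : ℕ} (he : Odd e) (hφ : ∀ t, φ^[e] t = t) {j : K} (hj : j ≠ 0)
    (h : φ ((j + j⁻¹) ^ 2) = (j + j⁻¹) ^ 2) : φ j = j := by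
  refine odd_fix he (hφ j) ?_
  have h0 : φ j ≠ 0 := by simpa using hj
  simp only [map_pow, map_add, map_inv₀] at h
  have : (φ j - j) * (φ j + j) * (φ j * j - 1) * (φ j * j + 1) = 0 := by
    field_simp at h
    linear_combination h
  simp only [mul_eq_zero] at this
  rcases this with ((h | h) | h) | h
  · rw [sub_eq_zero.1 h, sub_eq_zero.1 h]
  · have e := eq_neg_of_add_eq_zero_left h
    rw [e, map_neg, e, neg_neg]
  · have e : φ j = j⁻¹ := eq_inv_of_mul_eq_one_left (sub_eq_zero.1 h)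
    rw [e, map_inv₀, e, inv_inv]
  · have e : φ j = -j⁻¹ := by field_simp; linear_combination h
    rw [e, map_neg, map_inv₀, e]; simp

lemma noX (φ ψ : K →+* K) (hc : ∀ t, φ (ψ t) = ψ (φ t)) {e : ℕ} (he : Odd e)
    (hψ : ∀ t, ψ^[e] t = t) (h2 : (2 : K) ≠ 0) {a b x α β : K} (ha : ψ a = a) (hb : φ b = b)
    (ha' : φ (a ^ 2) ≠ a ^ 2) (hb' : ψ (b ^ 2) ≠ b ^ 2) (hα : ψ α = α) (hβ : ψ β = β)
    (hx : (2 * a * x) ^ 2 = a ^ 2 * b ^ 2 - 4 * (a ^ 2 + b ^ 2))
    (ht : φ (b * α + x * β) = b * α + x * β) : β = 0 := by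
  by_contra h0
  have a0 : a ≠ 0 := by rintro rfl; simp at ha'
  have b0 : b ≠ 0 := by rintro rfl; simp at hb'
  have h4 : (4 : K) ≠ 0 := by rw [show (4 : K) = 2 * 2 by norm_num]; exact mul_ne_zero h2 h2
  set τ := (b * α + x * β) / b with hτ
  set s := (b ^ 2)⁻¹ with hs
  set P := (a ^ 2 - 4) / (4 * a ^ 2) * β ^ 2 with hP
  have fτ : φ τ = τ := by rw [hτ, map_div₀, ht, hb]
  have fs : φ s = s := by simp [hs, hb]
  have gP : ψ P = P := by simp [hP, ha, hβ, map_ofNat]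
  have E0 : P - β ^ 2 * s = (τ - α) ^ 2 := by
    rw [hP, hs, hτ]; field_simp; linear_combination (-β ^ 2) * hx
  have E1 := congrArg ψ E0
  simp only [map_sub, map_mul, map_pow, gP, hα, hβ] at E1
  have E2 := congrArg ψ E1
  simp only [map_sub, map_mul, map_pow, gP, hα, hβ] at E2
  have F0 := congrArg φ E0
  have F1 := congrArg φ E1
  have F2 := congrArg φ E2
  simp only [map_sub, map_mul, map_pow, hc, fτ, fs] at F0 F1 F2
  have n01 : ψ τ ≠ τ := fun h => by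
    rw [h, ← E0] at E1
    have : ψ s = s := mul_left_cancel₀ (pow_ne_zero 2 h0) (by linear_combination -E1)
    rw [hs, map_inv₀, _root_.inv_inj] at this
    exact hb' this
  have n12 : ψ (ψ τ) ≠ ψ τ := fun h => n01 (ψ.injective h)
  have n02 : ψ (ψ τ) ≠ τ := fun h => n01 (odd_fix he (hψ τ) h)
  set t1 := ψ τ
  set t2 := ψ t1
  set s1 := ψ s
  set s2 := ψ s1
  have V : (t1 - τ) * (t2 - t1) * (t2 - τ) ≠ 0 :=
    mul_ne_zero (mul_ne_zero (sub_ne_zero.2 n01) (sub_ne_zero.2 n12)) (sub_ne_zero.2 n02)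
  have D1 : β ^ 2 * (s * (t1 - t2) + s1 * (t2 - τ) + s2 * (τ - t1)) =
      (t1 - τ) * (t2 - t1) * (t2 - τ) := by
    linear_combination (-(t1 - t2)) * E0 - (t2 - τ) * E1 - (τ - t1) * E2
  have D2 : φ β ^ 2 * (s * (t1 - t2) + s1 * (t2 - τ) + s2 * (τ - t1)) =
      (t1 - τ) * (t2 - t1) * (t2 - τ) := by
    linear_combination (-(t1 - t2)) * F0 - (t2 - τ) * F1 - (τ - t1) * F2
  have R : φ β ^ 2 = β ^ 2 := mul_right_cancel₀ (right_ne_zero_of_mul (D1 ▸ V)) (D2.trans D1.symm)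
  rw [R] at F0 F1
  have A : φ α = α := mul_left_cancel₀ (mul_ne_zero h2 (sub_ne_zero.2 n01))
    (by linear_combination F1 - F0 - E1 + E0)
  have Q : φ P = P := by rw [A] at F0; linear_combination F0 - E0
  have a1 : φ a ≠ 0 := by simpa using a0
  simp only [hP, map_mul, map_div₀, map_sub, map_pow, map_ofNat, R] at Q
  have Q2 := mul_right_cancel₀ (pow_ne_zero 2 h0) Q
  rw [div_eq_div_iff (mul_ne_zero h4 (pow_ne_zero 2 a1)) (mul_ne_zero h4 (pow_ne_zero 2 a0))] at Q2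
  exact ha' (mul_left_cancel₀ (mul_ne_zero h4 h4) (by rw [map_pow]; linear_combination Q2))

abbrev M (K : Type*) := Matrix (Fin 2) (Fin 2) K

lemma cmul (x y : Matrix.SpecialLinearGroup (Fin 2) K) : (x * y).1 = x.1 * y.1 := rfl

lemma cinv (x : Matrix.SpecialLinearGroup (Fin 2) K) : (x⁻¹).1 = adjugate x.1 := rfl

lemma sq_eq_one_iff_of_noZeroDivisors {c : K} : c ^ 2 = 1 ↔ c = 1 ∨ c = -1 := by
  rw [sq, mul_self_eq_one_iff]

lemma ch (X : M K) : X * X = X.trace • X - X.det • (1 : M K) := by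
  ext i j
  fin_cases i <;> fin_cases j <;> simp [mul_apply, Fin.sum_univ_two, det_fin_two, trace_fin_two] <;>
    ring

lemma ch2 (X Y : M K) : Y * X = X.trace • Y + Y.trace • X +
    ((X * Y).trace - X.trace * Y.trace) • (1 : M K) - X * Y := by
  ext i j
  fin_cases i <;> fin_cases j <;> simp [mul_apply, Fin.sum_univ_two, trace_fin_two] <;> ring

lemma tr_fix (φ : K →+* K) {b : K} (hb : φ b = b) (X Y : Matrix.SpecialLinearGroup (Fin 2) K)
    (hX : X.1.trace = 2) (hY : Y.1.trace = b) (hXY : (X.1 * Y.1).trace = 0)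
    (g : Matrix.SpecialLinearGroup (Fin 2) K) (hg : g ∈ Subgroup.closure {X, Y}) :
    φ (g.1 * Y.1).trace = (g.1 * Y.1).trace ∧
      φ (g.1 * (X.1 * Y.1)).trace = (g.1 * (X.1 * Y.1)).trace := by
  let T : M K → Prop := fun G => φ G.trace = G.trace ∧ φ (G * X.1).trace = (G * X.1).trace ∧
    φ (G * Y.1).trace = (G * Y.1).trace ∧ φ (G * (X.1 * Y.1)).trace = (G * (X.1 * Y.1)).trace
  have xx : X.1 * X.1 = (2 : K) • X.1 - 1 := by rw [ch, hX, X.2, one_smul]
  have yy : Y.1 * Y.1 = b • Y.1 - 1 := by rw [ch, hY, Y.2, one_smul]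
  have yx : Y.1 * X.1 = (2 : K) • Y.1 + b • X.1 + (-(2 * b)) • (1 : M K) - X.1 * Y.1 := by
    rw [ch2 X.1 Y.1, hX, hY, hXY, zero_sub]
  have xxy : X.1 * (X.1 * Y.1) = (2 : K) • (X.1 * Y.1) - Y.1 := by
    rw [← mul_assoc, xx, sub_mul, smul_mul_assoc, one_mul]
  have yxy : Y.1 * (X.1 * Y.1) = X.1 - (2 : K) • (1 : M K) := by
    rw [← mul_assoc, yx]
    simp only [sub_mul, add_mul, smul_mul_assoc, mul_assoc, yy, mul_sub, mul_smul_comm, one_mul,
      mul_one]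
    module
  have tx : ∀ G, T G → T (G * X.1) := fun G ⟨h0, h1, h2, h3⟩ => by
    simp only [T, mul_assoc, xx, xxy, mul_sub, mul_smul_comm, mul_one, trace_sub, trace_smul,
      smul_eq_mul, map_sub, map_mul, map_ofNat, h0, h1, h2, h3, and_self]
  have ty : ∀ G, T G → T (G * Y.1) := fun G ⟨h0, h1, h2, h3⟩ => by
    simp only [T, mul_assoc, yy, yx, yxy, mul_sub, mul_add, mul_smul_comm, mul_one, trace_sub,
      trace_add, trace_smul, smul_eq_mul, map_sub, map_add, map_neg, map_mul, map_ofNat, h0, h1, h2,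
      h3, hb, and_self]
  have tl : ∀ (c : K) G H, φ c = c → T G → T H → T (c • G - H) :=
    fun c G H hc ⟨h0, h1, h2, h3⟩ ⟨k0, k1, k2, k3⟩ => by
      simp only [T, sub_mul, smul_mul_assoc, trace_sub, trace_smul, smul_eq_mul, map_sub, map_mul,
        hc, h0, h1, h2, h3, k0, k1, k2, k3, and_self]
  have iv : ∀ (Z : Matrix.SpecialLinearGroup (Fin 2) K) (c : K), Z.1 * Z.1 = c • Z.1 - 1 → ∀ G : M K,
      G * (Z⁻¹).1 = c • G - G * Z.1 := by
    intro Z c h G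
    have e : Z.1 * (Z⁻¹).1 = 1 := by rw [← cmul]; simp
    have : (Z⁻¹).1 = c • (1 : M K) - Z.1 := by
      have h2 := congrArg (· * (Z⁻¹).1) h
      simp only [mul_assoc, e, mul_one, sub_mul, smul_mul_assoc, one_mul] at h2
      rw [eq_sub_iff_add_eq, h2]; abel
    rw [this, mul_sub, mul_smul_comm, mul_one]
  have : T g.1 := by
    induction hg using Subgroup.closure_induction_right with
    | one => simp [T, hX, hY, hXY, hb, map_ofNat]
    | mul_right x _ y hy ih =>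
      rcases hy with rfl | rfl
      · exact tx _ ih
      · exact ty _ ih
    | mul_inv_cancel x _ y hy ih =>
      rw [cmul]
      rcases hy with rfl | rfl
      · rw [iv _ _ xx]; exact tl _ _ _ (map_ofNat φ 2) ih (tx _ ih)
      · rw [iv _ _ yy]; exact tl _ _ _ hb ih (ty _ ih)
  exact ⟨this.2.2.1, this.2.2.2⟩

theorem result (p e₁ e₂ : ℕ) (hp : p.Prime) (hp2 : Odd p) (h1 : 1 < e₁) (h2 : 1 < e₂)
    (o1 : Odd e₁) (o2 : Odd e₂) (hc : Nat.Coprime e₁ e₂) (K : Type*) [Field K] [Fintype K]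
    (hK : Fintype.card K = p ^ (e₁ * e₂)) (j₁ j₂ : K) (hj₁ : orderOf j₁ = p ^ e₁ - 1)
    (hj₂ : orderOf j₂ = p ^ e₂ - 1) (ω₁ ω₂ r : K) (hω₁ : ω₁ = j₁ + j₁⁻¹) (hω₂ : ω₂ = j₂ + j₂⁻¹)
    (hr : r ^ 2 = ω₁ ^ 2 * ω₂ ^ 2 - 4 * (ω₁ ^ 2 + ω₂ ^ 2))
    (σ₁ σ₂ σ₃ : Matrix.SpecialLinearGroup (Fin 2) K)
    (hσ₁ : σ₁.1 = (2 : K)⁻¹ • !![ω₁, ω₁ + 2; ω₁ - 2, ω₁])
    (hσ₂ : σ₂.1 = (2 : K)⁻¹ • !![2 + ω₁, ω₁; -ω₁, 2 - ω₁])
    (hσ₃ : σ₃.1 = !![ω₂ / (2 * ω₁) * (ω₁ - 2), r / (2 * ω₁); r / (2 * ω₁),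
      ω₂ / (2 * ω₁) * (ω₁ + 2)]) :
    Subgroup.closure {(σ₁ : ProjectiveSpecialLinearGroup (Fin 2) K), ↑σ₂} ⊓
      Subgroup.closure {(σ₂ : ProjectiveSpecialLinearGroup (Fin 2) K), ↑σ₃} =
      Subgroup.closure {(σ₂ : ProjectiveSpecialLinearGroup (Fin 2) K)} := by
  haveI := Fact.mk hp
  haveI : CharP K p := by
    obtain ⟨q, hq⟩ := CharP.exists K
    obtain ⟨n, hq', hn⟩ := FiniteField.card K q
    have : q ∣ p ^ (e₁ * e₂) := by rw [← hK, hn]; exact dvd_pow_self q n.ne_zero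
    rwa [(Nat.prime_dvd_prime_iff_eq hq' hp).1 (hq'.dvd_of_dvd_pow this)] at hq
  have t2 : (2 : K) ≠ 0 := fun h => by
    have := (CharP.cast_eq_zero_iff K p 2).1 (by exact_mod_cast h)
    rw [(Nat.prime_dvd_prime_iff_eq hp Nat.prime_two).1 this] at hp2
    exact absurd hp2 (by decide)
  let φ := iterateFrobenius K p e₂
  let ψ := iterateFrobenius K p e₁
  have it : ∀ a b, a * b = e₁ * e₂ → ∀ t : K, (iterateFrobenius K p a)^[b] t = t := by
    intro a b h t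
    rw [← iterateFrobenius_mul_apply, iterateFrobenius_def, h, ← hK, FiniteField.pow_card]
  have fx : ∀ (e : ℕ) (j : K), orderOf j = p ^ e - 1 → 1 < e → j ≠ 0 ∧
      iterateFrobenius K p e (j + j⁻¹) = j + j⁻¹ ∧
      ∀ f, Nat.Coprime e f → iterateFrobenius K p f j ≠ j := by
    intro e j hj he
    have l : p ^ 1 < p ^ e := Nat.pow_lt_pow_right hp.one_lt he
    have l2 := hp.two_le
    rw [pow_one] at l
    have u := pow_orderOf_eq_one j
    have j0 : j ≠ 0 := by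
      rintro rfl
      rw [hj, zero_pow (by omega)] at u
      exact zero_ne_one u
    have : iterateFrobenius K p e j = j := by
      rw [iterateFrobenius_def, show p ^ e = (p ^ e - 1) + 1 by omega, pow_succ, ← hj, u, one_mul]
    refine ⟨j0, by simp only [map_add, map_inv₀, this], fun f hf h => ?_⟩
    have pf : 0 < p ^ f := pow_pos hp.pos f
    rw [iterateFrobenius_def, show p ^ f = (p ^ f - 1) + 1 by omega, pow_succ] at h
    have d := orderOf_dvd_of_pow_eq_one (mul_right_cancel₀ j0 (h.trans (one_mul j).symm))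
    have := Nat.pow_sub_one_gcd_pow_sub_one p e f
    rw [hf.gcd_eq_one, pow_one, Nat.gcd_eq_left (hj ▸ d)] at this
    omega
  obtain ⟨z1, g1, n1⟩ := fx e₁ j₁ hj₁ h1
  obtain ⟨z2, g2, n2⟩ := fx e₂ j₂ hj₂ h2
  have m1 : φ (ω₁ ^ 2) ≠ ω₁ ^ 2 := fun h =>
    n1 e₂ hc (notfix φ o1 (it _ _ (mul_comm _ _)) z1 (hω₁ ▸ h))
  have m2 : ψ (ω₂ ^ 2) ≠ ω₂ ^ 2 := fun h => n2 e₁ hc.symm (notfix ψ o2 (it _ _ rfl) z2 (hω₂ ▸ h))
  rw [← hω₁] at g1
  rw [← hω₂] at g2
  have a0 : ω₁ ≠ 0 := by rintro rfl; simp at m1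
  have b0 : ω₂ ≠ 0 := by rintro rfl; simp at m2
  have cm : ∀ t, φ (ψ t) = ψ (φ t) := fun t => by
    simp only [φ, ψ, iterateFrobenius_def, ← pow_mul, mul_comm]
  refine le_antisymm ?_ (le_inf (Subgroup.closure_mono (by simp)) (Subgroup.closure_mono (by simp)))
  rintro y ⟨hy1, hy2⟩
  let π := QuotientGroup.mk' (Subgroup.center (Matrix.SpecialLinearGroup (Fin 2) K))
  have cl : ∀ X Y : Matrix.SpecialLinearGroup (Fin 2) K, Subgroup.closure
      {(X : ProjectiveSpecialLinearGroup (Fin 2) K), ↑Y} = (Subgroup.closure {X, Y}).map π := by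
    intro X Y
    rw [MonoidHom.map_closure, Set.image_pair]; rfl
  rw [SetLike.mem_coe, cl] at hy1 hy2
  obtain ⟨k, hk, rfl⟩ := hy1
  obtain ⟨g, hg, e⟩ := hy2
  rw [← e]
  have fk : k.1.map ψ = k.1 := by
    clear e
    induction hk using Subgroup.closure_induction with
    | mem x hx =>
      rcases hx with rfl | rfl
      · rw [hσ₁]; ext i j; fin_cases i <;> fin_cases j <;> simp [ψ, g1, map_ofNat]
      · rw [hσ₂]; ext i j; fin_cases i <;> fin_cases j <;> simp [ψ, g1, map_ofNat]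
    | one => simp
    | mul x y _ _ hx hy => rw [cmul, Matrix.map_mul, hx, hy]
    | inv x _ hx =>
      rw [cinv]
      conv_rhs => rw [← hx]
      exact ψ.map_adjugate x.1
  have sg : ∀ {u v : Matrix.SpecialLinearGroup (Fin 2) K}, π u = π v ↔ u.1 = v.1 ∨ u.1 = -v.1 := by
    intro u v
    rw [eq_comm]
    refine QuotientGroup.eq.trans (Matrix.SpecialLinearGroup.mem_center_iff.trans ?_)
    have ev : v.1 * (v⁻¹ * u).1 = u.1 := by rw [← cmul]; simp
    have ev' : (v⁻¹).1 * v.1 = 1 := by rw [← cmul]; simp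
    constructor
    · rintro ⟨c, h, h'⟩
      rw [← h'] at ev
      rcases sq_eq_one_iff_of_noZeroDivisors.1 h with rfl | rfl
      · left; simpa using ev.symm
      · right; rw [map_neg, map_one] at ev; simpa using ev.symm
    · rintro (h | h)
      · exact ⟨1, by simp, by rw [cmul, h, ev']; simp⟩
      · exact ⟨-1, by simp, by rw [cmul, h, mul_neg, ev', map_neg, map_one]⟩
  have fg : ∀ i j, ψ (g.1 i j) = g.1 i j := by
    intro i j
    have := congrFun (congrFun fk i) j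
    rcases sg.1 e with h | h <;> simpa [h] using this
  obtain ⟨T1, T2⟩ := tr_fix φ g2 σ₂ σ₃ (by rw [hσ₂]; simp [trace_fin_two]; field_simp; ring)
    (by rw [hσ₃]; simp [trace_fin_two]; field_simp; ring)
    (by rw [hσ₂, hσ₃]; simp [trace_fin_two]; field_simp; ring) g hg
  have hdet := g.2
  rw [det_fin_two] at hdet
  have f00 := fg 0 0
  have f01 := fg 0 1
  have f10 := fg 1 0
  have f11 := fg 1 1
  have eg : g.1 = !![g.1 0 0, g.1 0 1; g.1 1 0, g.1 1 1] := eta_fin_two _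
  set a := g.1 0 0
  set b := g.1 0 1
  set c := g.1 1 0
  set d := g.1 1 1
  have hx : (2 * ω₁ * (r / (2 * ω₁))) ^ 2 = ω₁ ^ 2 * ω₂ ^ 2 - 4 * (ω₁ ^ 2 + ω₂ ^ 2) := by
    rw [← hr]; field_simp
  have e1 : (g.1 * σ₃.1).trace = ω₂ * ((a * (ω₁ - 2) + d * (ω₁ + 2)) / (2 * ω₁)) +
      r / (2 * ω₁) * (b + c) := by
    rw [eg, hσ₃]; simp [trace_fin_two]; field_simp; ring
  have e2 : (g.1 * (σ₂.1 * σ₃.1)).trace = ω₂ * (((a - d) * (ω₁ ^ 2 - 4) - b * ω₁ * (ω₁ - 2) +
      c * ω₁ * (ω₁ + 2)) / (4 * ω₁)) +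
      r / (2 * ω₁) * (((a - d) * ω₁ + b * (2 - ω₁) + c * (2 + ω₁)) / 2) := by
    have h4 : (4 : K) ≠ 0 := by rw [show (4 : K) = 2 * 2 by norm_num]; exact mul_ne_zero t2 t2
    rw [eg, hσ₃, hσ₂]; simp [trace_fin_two]; field_simp; ring
  rw [e1] at T1
  rw [e2] at T2
  have B1 := noX φ ψ cm o2 (it _ _ rfl) t2 g1 g2 m1 m2
    (by simp [ψ, g1, map_ofNat, f00, f11]) (by simp [f01, f10]) hx T1
  have B2 := noX φ ψ cm o2 (it _ _ rfl) t2 g1 g2 m1 m2
    (by simp [ψ, g1, map_ofNat, f00, f11, f01, f10])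
    (by simp [ψ, g1, map_ofNat, f00, f11, f01, f10]) hx T2
  have hcb : c = -b := by linear_combination B1
  have had : a = d + 2 * b := by
    rw [div_eq_zero_iff, or_iff_left t2, hcb] at B2
    exact mul_right_cancel₀ a0 (by linear_combination B2)
  have hm : (d + b) ^ 2 = 1 := by rw [had, hcb] at hdet; linear_combination hdet
  have hv : φ (b / ω₁) = b / ω₁ := by
    rw [B1, mul_zero, add_zero, map_mul, g2] at T1
    have T := mul_left_cancel₀ b0 T1
    have q : (a * (ω₁ - 2) + d * (ω₁ + 2)) / (2 * ω₁) = (d + b) - 2 * (b / ω₁) := by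
      rw [had]; field_simp; ring
    have fm : φ (d + b) = d + b := by
      rcases sq_eq_one_iff_of_noZeroDivisors.1 hm with h | h <;> simp [h]
    rw [q, map_sub, fm, map_mul, map_ofNat] at T
    exact mul_left_cancel₀ t2 (by linear_combination -T)
  have hv' : ψ (b / ω₁) = b / ω₁ := by rw [map_div₀, f01, g1]
  obtain ⟨n, hn⟩ : ∃ n : ℤ, (n : K) = b / ω₁ := by
    rw [← mem_bot_iff_intCast p K, Subfield.mem_bot_iff_pow_eq_self K p]
    have u1 : IsPeriodicPt (frobenius K p) e₁ (b / ω₁) := by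
      rw [IsPeriodicPt, IsFixedPt, ← coe_iterateFrobenius]; exact hv'
    have u2 : IsPeriodicPt (frobenius K p) e₂ (b / ω₁) := by
      rw [IsPeriodicPt, IsFixedPt, ← coe_iterateFrobenius]; exact hv
    have := u1.gcd u2
    rwa [hc.gcd_eq_one] at this
  have pw : ∀ m : ℤ, (σ₂ ^ m).1 = !![1 + m * ω₁ / 2, m * ω₁ / 2; -(m * ω₁ / 2), 1 - m * ω₁ / 2] := by
    intro m
    induction m using Int.induction_on with
    | zero => ext i j; fin_cases i <;> fin_cases j <;> simp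
    | succ m ih =>
      rw [_root_.zpow_add_one, cmul, ih, hσ₂]
      ext i j; fin_cases i <;> fin_cases j <;> simp <;> field_simp <;> ring
    | pred m ih =>
      rw [_root_.zpow_sub_one, cmul, ih, cinv, hσ₂]
      ext i j; fin_cases i <;> fin_cases j <;> simp [adjugate_fin_two] <;> field_simp <;> ring
  have hb : b = n * ω₁ := by rw [hn]; field_simp
  rw [← Subgroup.zpowers_eq_closure]
  rcases sq_eq_one_iff_of_noZeroDivisors.1 hm with h | h
  · refine ⟨2 * n, ((map_zpow π σ₂ _).symm.trans (sg.2 (Or.inl ?_)))⟩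
    rw [pw, eg, had, hcb, show d = 1 - b by linear_combination h, hb]
    ext i j; fin_cases i <;> fin_cases j <;> simp <;> field_simp <;> ring
  · refine ⟨-(2 * n), ((map_zpow π σ₂ _).symm.trans (sg.2 (Or.inr ?_)))⟩
    rw [pw, eg, had, hcb, show d = -1 - b by linear_combination h, hb]
    ext i j; fin_cases i <;> fin_cases j <;> simp <;> field_simp <;> ring

end Pool.Agent.Results.MP_5bb224_al.Intersection
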